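import Pool.Agent.Q107.Broadcast.Defs

/-!
# Broadcasts on finite connected graphs: basic facts, distance tables, blow-ups
-/

set_option autoImplicit false

namespace Q107.Broadcast

open SimpleGraph Finset

/-! ### distances from a table -/

lemma table_le {V : Type*} {G : SimpleGraph V} {D : V → V → ℕ}
    (h1 : ∀ u v w, G.Adj v w → D u w ≤ D u v + 1) (u : V) :
    ∀ {a b : V} (p : G.Walk a b), D u b ≤ D u a + p.length := by
  intro a b p
  induction p with
  | nil => simp
  | cons h p ih =>
    rw [Walk.length_cons]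
    have := h1 u _ _ h
    omega

lemma table_walk {V : Type*} {G : SimpleGraph V} {D : V → V → ℕ}
    (h2 : ∀ u v, u ≠ v → ∃ w, G.Adj w v ∧ D u w + 1 = D u v) (u : V) :
    ∀ (k : ℕ) (v : V), D u v = k → ∃ p : G.Walk u v, p.length ≤ k := by
  intro k
  induction k with
  | zero =>
    intro v hv
    by_cases h : u = v
    · subst h
      exact ⟨Walk.nil, by simp⟩
    · obtain ⟨w, _, hw⟩ := h2 u v h
      omega
  | succ k ih =>
    intro v hv
    by_cases h : u = v
    · subst h
      exact ⟨Walk.nil, by simp⟩
    · obtain ⟨w, hadj, hw⟩ := h2 u v h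
      obtain ⟨p, hp⟩ := ih w (by omega)
      refine ⟨p.append (Walk.cons hadj Walk.nil), ?_⟩
      rw [Walk.length_append, Walk.length_cons, Walk.length_nil]
      omega

lemma table {V : Type*} {G : SimpleGraph V} {D : V → V → ℕ} (h0 : ∀ u, D u u = 0)
    (h1 : ∀ u v w, G.Adj v w → D u w ≤ D u v + 1)
    (h2 : ∀ u v, u ≠ v → ∃ w, G.Adj w v ∧ D u w + 1 = D u v) (u v : V) :
    G.Reachable u v ∧ G.dist u v = D u v := by
  obtain ⟨p, hp⟩ := table_walk h2 u (D u v) v rfl
  refine ⟨⟨p⟩, le_antisymm ((dist_le p).trans hp) ?_⟩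
  have hr : G.Reachable u v := ⟨p⟩
  obtain ⟨q, hq⟩ := hr.exists_walk_length_eq_dist
  rw [← hq]
  have := table_le h1 u q
  rw [h0] at this
  omega

/-! ### minimal dominating broadcasts -/

section

variable {V : Type} [Fintype V] {G : SimpleGraph V}

/-- `x` is a private boundary vertex of `v`. -/
def Priv (G : SimpleGraph V) (f : V → ℕ) (v x : V) : Prop :=
  G.dist x v ≤ f v ∧ (∀ w, w ≠ v → 0 < f w → f w < G.dist x w) ∧ (f v = 1 ∨ G.dist x v = f v)

omit [Fintype V] in
lemma priv_iff {f : V → ℕ} {v x : V} (hv : 0 < f v) :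
    x ∈ privateBoundary G f v ↔ Priv G f v x := by
  classical
  unfold privateBoundary Priv Hears
  constructor
  · rintro ⟨h1, h2⟩
    push Not at h2
    refine ⟨h1, fun w hw hpos => ?_, ?_⟩
    · have := h2 w
      rw [Function.update_of_ne hw] at this
      exact this hpos
    · have := h2 v
      rw [Function.update_self] at this
      by_cases h3 : f v = 1
      · exact Or.inl h3
      · right
        have := this (by omega)
        omega
  · rintro ⟨h1, h2, h3⟩
    refine ⟨h1, ?_⟩
    rintro ⟨w, h4, h5⟩
    by_cases hw : w = v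
    · subst hw
      have e : Function.update f w (f w - 1) w = f w - 1 := Function.update_self ..
      have h4' : 0 < f w - 1 := lt_of_lt_of_eq h4 (by convert e)
      have h5' : G.dist x w ≤ f w - 1 := h5.trans_eq (by convert e)
      omega
    · have e : Function.update f v (f v - 1) w = f w := Function.update_of_ne hw ..
      have h4' : 0 < f w := lt_of_lt_of_eq h4 (by convert e)
      have h5' : G.dist x w ≤ f w := h5.trans_eq (by convert e)
      have := h2 w hw h4'
      omega

lemma priv_of_min {f : V → ℕ} (hf : IsMinDominating G f) (v : V) (hv : 0 < f v) :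
    ∃ x, Priv G f v x := by
  classical
  have h1 := hf.2.2 (Function.update f v (f v - 1)) (fun w => by
      by_cases hw : w = v
      · subst hw
        rw [Function.update_self]
        exact (Nat.sub_le _ _).trans (hf.1 w)
      · rw [Function.update_of_ne hw]
        exact hf.1 w) (by
      intro h
      have := congrFun h v
      rw [Function.update_self] at this
      omega) (fun w => by
      by_cases hw : w = v
      · subst hw
        rw [Function.update_self]
        exact Nat.sub_le _ _
      · rw [Function.update_of_ne hw])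
  unfold IsDominating at h1
  push Not at h1
  obtain ⟨x, hx⟩ := h1
  obtain ⟨y, hy1, hy2⟩ := hf.2.1 x
  have hyv : y = v := by
    by_contra hne
    apply hx y
    unfold Hears
    rw [Function.update_of_ne hne]
    exact ⟨hy1, hy2⟩
  subst hyv
  refine ⟨x, (priv_iff hv).1 ⟨hy2, ?_⟩⟩
  rintro ⟨w, hw⟩
  exact hx w (by convert hw)

lemma min_of_priv {f : V → ℕ} (hb : IsBroadcast G f) (hd : IsDominating G f)
    (hp : ∀ v, 0 < f v → ∃ x, Priv G f v x) : IsMinDominating G f := by
  refine ⟨hb, hd, fun g _ hne hle hdom => ?_⟩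
  have : ∃ v, g v < f v := by
    by_contra hcon
    push Not at hcon
    exact hne (funext fun v => le_antisymm (hle v) (hcon v))
  obtain ⟨v, hv⟩ := this
  obtain ⟨x, h1, h2, h3⟩ := hp v (by omega)
  obtain ⟨w, h4, h5⟩ := hdom x
  by_cases hw : w = v
  · subst hw
    omega
  · have h6 := h2 w hw (by have := hle w; omega)
    have := hle w
    omega

lemma weight_le_ecc (f : V → ℕ) (hf : IsBroadcast G f) : ∑ v, f v ≤ ∑ v, ecc G v :=
  Finset.sum_le_sum fun v _ => hf v

lemma le_upper {f : V → ℕ} (hf : IsMinDominating G f) : ∑ v, f v ≤ upperBroadcastNum G := by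
  apply le_csSup
  · refine ⟨∑ v, ecc G v, ?_⟩
    rintro k ⟨g, hg, rfl⟩
    exact weight_le_ecc g hg.1
  · exact ⟨f, hf, rfl⟩

lemma upper_le {k : ℕ} (h : ∀ f, IsMinDominating G f → ∑ v, f v ≤ k) :
    upperBroadcastNum G ≤ k := by
  unfold upperBroadcastNum
  rcases Set.eq_empty_or_nonempty {k | ∃ f : V → ℕ, IsMinDominating G f ∧ ∑ v, f v = k} with h' | h'
  · rw [h']
    simp
  · apply csSup_le h'
    rintro m ⟨f, hf, rfl⟩
    exact h f hf

lemma le_bnr {f : V → ℕ} (hb : IsBroadcast G f) (hbn : IsBnIndep G f)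
    (hp : ∀ v, 0 < f v → ∃ x, Priv G f v x) : ∑ v, f v ≤ bnrIndepNum G := by
  apply le_csSup
  · refine ⟨∑ v, ecc G v, ?_⟩
    rintro k ⟨g, hg, _, _, rfl⟩
    exact weight_le_ecc g hg
  · refine ⟨f, hb, hbn, fun v hv => ?_, rfl⟩
    obtain ⟨x, hx⟩ := hp v hv
    exact ⟨x, (priv_iff hv).2 hx⟩

lemma dist_le_ecc (u v : V) : G.dist u v ≤ ecc G v :=
  Finset.le_sup (f := fun u => G.dist u v) (Finset.mem_univ u)

lemma ecc_le {k : ℕ} {v : V} (h : ∀ u, G.dist u v ≤ k) : ecc G v ≤ k :=
  Finset.sup_le fun u _ => h u

end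

/-! ### blow-ups -/

/-- The strong product of `G` with the complete graph on `m` vertices. -/
def blow {V : Type} (G : SimpleGraph V) (m : ℕ) : SimpleGraph (V × Fin m) where
  Adj x y := (x.1 = y.1 ∧ x.2 ≠ y.2) ∨ G.Adj x.1 y.1
  symm := ⟨by
    rintro x y (⟨h1, h2⟩ | h)
    · exact Or.inl ⟨h1.symm, h2.symm⟩
    · exact Or.inr h.symm⟩
  loopless := ⟨by
    rintro x (⟨_, h⟩ | h)
    · exact h rfl
    · exact G.loopless.irrefl _ h⟩

open Classical in
/-- the distances of the blow-up -/
noncomputable def blowD {V : Type} (G : SimpleGraph V) {m : ℕ} (x y : V × Fin m) : ℕ :=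
  if x.1 = y.1 then (if x.2 = y.2 then 0 else 1) else G.dist x.1 y.1

lemma blow_table {V : Type} {G : SimpleGraph V} (hG : G.Connected) {m : ℕ} (x y : V × Fin m) :
    (blow G m).Reachable x y ∧ (blow G m).dist x y = blowD G x y := by
  classical
  apply table
  · rintro ⟨u, i⟩
    simp [blowD]
  · rintro ⟨u, i⟩ ⟨v, j⟩ ⟨w, l⟩ h
    unfold blowD
    dsimp only
    rcases h with ⟨h1, h2⟩ | h
    · dsimp only at h1
      subst h1
      split_ifs <;> omega
    · dsimp only at h
      have h3 : G.dist u w ≤ G.dist u v + 1 := by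
        have h4 := (hG u v).dist_triangle_left w
        rw [dist_eq_one_iff_adj.2 h] at h4
        exact h4
      by_cases h5 : u = w
      · rw [if_pos h5]
        split_ifs <;> omega
      · rw [if_neg h5]
        by_cases h6 : u = v
        · subst h6
          rw [SimpleGraph.dist_self] at h3
          omega
        · rw [if_neg h6]
          exact h3
  · rintro ⟨u, i⟩ ⟨v, j⟩ hne
    by_cases huv : u = v
    · subst huv
      have hij : i ≠ j := fun h => hne (by rw [h])
      refine ⟨(u, i), Or.inl ⟨rfl, hij⟩, ?_⟩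
      unfold blowD
      simp [hij]
    · obtain ⟨p, hp⟩ := (hG v u).exists_walk_length_eq_dist
      cases p with
      | nil => exact absurd rfl huv
      | cons h q =>
        rename_i w
        rw [Walk.length_cons] at hp
        have h1 : G.dist u w + 1 = G.dist u v := by
          have e1 := dist_le q
          rw [SimpleGraph.dist_comm] at e1
          rw [SimpleGraph.dist_comm] at hp
          have e2 := (hG u w).dist_triangle_left v
          rw [dist_eq_one_iff_adj.2 h.symm] at e2
          omega
        by_cases hwu : u = w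
        · subst hwu
          refine ⟨(u, i), Or.inr h.symm, ?_⟩
          unfold blowD
          simp only [if_true]
          rw [if_neg huv, ← h1, SimpleGraph.dist_self]
        · refine ⟨(w, i), Or.inr h.symm, ?_⟩
          unfold blowD
          simp only
          rw [if_neg huv, if_neg hwu]
          exact h1

section blow

variable {V : Type} [Fintype V] {G : SimpleGraph V} {m : ℕ}

omit [Fintype V] in
lemma blow_dist (hG : G.Connected) (x y : V × Fin m) :
    (blow G m).dist x y = blowD G x y := (blow_table hG x y).2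

omit [Fintype V] in
lemma blowD_ne {u v : V} (h : u ≠ v) (i j : Fin m) : blowD G (u, i) (v, j) = G.dist u v := by
  unfold blowD
  rw [if_neg h]

omit [Fintype V] in
lemma blowD_same (u : V) (i j : Fin m) : blowD G (u, i) (u, j) ≤ 1 := by
  unfold blowD
  rw [if_pos rfl]
  split_ifs <;> omega

omit [Fintype V] in
lemma dist_le_blowD (u v : V) (i j : Fin m) : G.dist u v ≤ blowD G (u, i) (v, j) := by
  by_cases h : u = v
  · subst h
    simp
  · rw [blowD_ne h]

omit [Fintype V] in
lemma blowD_le {k : ℕ} (hk : 0 < k) {u v : V} (h : G.dist u v ≤ k) (i j : Fin m) :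
    blowD G (u, i) (v, j) ≤ k := by
  by_cases huv : u = v
  · subst huv
    exact (blowD_same u i j).trans hk
  · rw [blowD_ne huv]
    exact h

lemma ecc_pos (hG : G.Connected) [Nontrivial V] (v : V) : 0 < ecc G v := by
  obtain ⟨w, hw⟩ := exists_ne v
  exact lt_of_lt_of_le ((hG w v).pos_dist_of_ne hw) (dist_le_ecc w v)

lemma blow_ecc (hG : G.Connected) [Nontrivial V] (v : V) (i : Fin m) :
    ecc (blow G m) (v, i) = ecc G v := by
  apply le_antisymm
  · apply ecc_le
    rintro ⟨u, j⟩
    rw [blow_dist hG]
    exact blowD_le (ecc_pos hG v) (dist_le_ecc u v) j i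
  · apply ecc_le
    intro u
    have h := dist_le_ecc (G := blow G m) (u, i) (v, i)
    rw [blow_dist hG] at h
    exact (dist_le_blowD u v i i).trans h

lemma sum_blow (f : V × Fin m → ℕ) : ∑ x, f x = ∑ v, ∑ i, f (v, i) :=
  Fintype.sum_prod_type f

/-- projecting a minimal dominating broadcast of the blow-up -/
lemma proj_min (hG : G.Connected) [Nontrivial V] (hm : 0 < m) {f : V × Fin m → ℕ}
    (hf : IsMinDominating (blow G m) f) : IsMinDominating G (fun v => ∑ i, f (v, i)) := by
  have hone : ∀ v i j, 0 < f (v, i) → 0 < f (v, j) → i = j := by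
    have key : ∀ v i j, 0 < f (v, i) → 0 < f (v, j) → f (v, i) ≤ f (v, j) → i = j := by
      intro v i j hi hj hle
      by_contra hne
      obtain ⟨⟨u, l⟩, h1, h2, _⟩ := priv_of_min hf (v, i) hi
      have h3 := h2 (v, j) (fun h => hne (Prod.mk.inj h).2.symm) hj
      rw [blow_dist hG] at h1 h3
      have h4 := blowD_le hj ((dist_le_blowD u v l i).trans (h1.trans hle)) l j
      omega
    intro v i j hi hj
    rcases le_total (f (v, i)) (f (v, j)) with h | h
    · exact key v i j hi hj h
    · exact (key v j i hj hi h).symm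
  have hsum : ∀ v i, 0 < f (v, i) → ∑ j, f (v, j) = f (v, i) := by
    intro v i hi
    apply Finset.sum_eq_single i
    · intro j _ hj
      by_contra hne
      exact hj (hone v j i (Nat.pos_of_ne_zero hne) hi)
    · intro h
      exact absurd (Finset.mem_univ i) h
  have hex : ∀ v, 0 < ∑ j, f (v, j) → ∃ i, 0 < f (v, i) := by
    intro v hv
    by_contra hcon
    push Not at hcon
    have : ∑ j, f (v, j) = 0 := Finset.sum_eq_zero fun j _ => Nat.le_zero.1 (hcon j)
    omega
  apply min_of_priv
  · intro v
    dsimp only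
    by_cases hv : 0 < ∑ j, f (v, j)
    · obtain ⟨i, hi⟩ := hex v hv
      rw [hsum v i hi, ← blow_ecc hG v i]
      exact hf.1 (v, i)
    · omega
  · intro u
    obtain ⟨⟨v, i⟩, h1, h2⟩ := hf.2.1 (u, ⟨0, hm⟩)
    refine ⟨v, ?_, ?_⟩
    · dsimp only
      rw [hsum v i h1]
      exact h1
    · dsimp only
      rw [hsum v i h1]
      rw [blow_dist hG] at h2
      exact (dist_le_blowD _ _ _ _).trans h2
  · intro v hv
    obtain ⟨i, hi⟩ := hex v hv
    obtain ⟨⟨u, l⟩, h1, h2, h3⟩ := priv_of_min hf (v, i) hi
    rw [blow_dist hG] at h1 h3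
    refine ⟨u, ?_, ?_, ?_⟩
    · dsimp only
      rw [hsum v i hi]
      exact (dist_le_blowD _ _ _ _).trans h1
    · intro w hw hpos
      obtain ⟨j, hj⟩ := hex w hpos
      have h4 := h2 (w, j) (fun h => hw (Prod.mk.inj h).1) hj
      rw [blow_dist hG] at h4
      dsimp only
      rw [hsum w j hj]
      by_contra hcon
      have h5 := blowD_le hj (not_lt.1 hcon) l j
      omega
    · dsimp only
      rw [hsum v i hi]
      rcases h3 with h3 | h3
      · exact Or.inl h3
      · by_cases h4 : f (v, i) = 1
        · exact Or.inl h4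
        · right
          have huv : u ≠ v := by
            intro h
            subst h
            have := blowD_same (G := G) u l i
            omega
          rw [blowD_ne huv] at h3
          exact h3

lemma blow_upper_le (hG : G.Connected) [Nontrivial V] (hm : 0 < m) :
    upperBroadcastNum (blow G m) ≤ upperBroadcastNum G := by
  apply upper_le
  intro f hf
  rw [sum_blow]
  exact le_upper (proj_min hG hm hf)

/-- lifting a bnr-independent broadcast to the blow-up -/
lemma lift_bnr (hG : G.Connected) [Nontrivial V] (hm : 0 < m) {f : V → ℕ} (hb : IsBroadcast G f)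
    (hbn : IsBnIndep G f) (hp : ∀ v, 0 < f v → ∃ x, Priv G f v x) :
    ∑ v, f v ≤ bnrIndepNum (blow G m) := by
  let z : Fin m := ⟨0, hm⟩
  let F : V × Fin m → ℕ := fun x => if x.2 = z then f x.1 else 0
  have hF : ∀ v i, 0 < F (v, i) → i = z ∧ F (v, i) = f v := by
    intro v i h
    by_cases hi : i = z
    · exact ⟨hi, by simp [F, hi]⟩
    · simp [F, hi] at h
  have hFz : ∀ v, F (v, z) = f v := fun v => by simp [F]
  have hsum : ∑ x, F x = ∑ v, f v := by
    rw [sum_blow]
    apply Finset.sum_congr rfl
    intro v _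
    rw [Finset.sum_eq_single z]
    · exact hFz v
    · intro j _ hj
      simp [F, hj]
    · intro h
      exact absurd (Finset.mem_univ z) h
  -- a broadcasting vertex is not heard by another broadcasting vertex
  have hself : ∀ u v, 0 < f u → 0 < f v → u ≠ v → f v < G.dist u v := by
    intro u v hu hv hne
    by_contra hcon
    have := hbn u v hu hv hne u (by simp) (not_lt.1 hcon)
    rw [SimpleGraph.dist_self] at this
    omega
  rw [← hsum]
  apply le_bnr
  · rintro ⟨v, i⟩
    rw [blow_ecc hG]
    by_cases h : 0 < F (v, i)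
    · rw [(hF v i h).2]
      exact hb v
    · omega
  · rintro ⟨u, i⟩ ⟨v, j⟩ hu hv hne ⟨w, l⟩ h1 h2
    obtain ⟨rfl, e1⟩ := hF u i hu
    obtain ⟨rfl, e2⟩ := hF v j hv
    rw [e1] at hu h1 ⊢
    rw [e2] at hv h2 ⊢
    have huv : u ≠ v := fun h => hne (by rw [h])
    rw [blow_dist hG] at h1 h2
    rw [blow_dist hG, blow_dist hG]
    have h3 := (dist_le_blowD w u l z).trans h1
    have h4 := (dist_le_blowD w v l z).trans h2
    obtain ⟨h5, h6⟩ := hbn u v hu hv huv w h3 h4
    have h7 : w ≠ u := by
      rintro rfl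
      rw [SimpleGraph.dist_self] at h5
      omega
    have h8 : w ≠ v := by
      rintro rfl
      rw [SimpleGraph.dist_self] at h6
      omega
    rw [blowD_ne h7, blowD_ne h8]
    exact ⟨h5, h6⟩
  · rintro ⟨v, i⟩ hv
    obtain ⟨rfl, e1⟩ := hF v i hv
    rw [e1] at hv
    obtain ⟨x, h1, h2, h3⟩ := hp v hv
    refine ⟨(x, z), ?_, ?_, ?_⟩
    · rw [blow_dist hG, e1]
      exact blowD_le hv h1 _ _
    · rintro ⟨w, j⟩ hw hpos
      obtain ⟨rfl, e2⟩ := hF w j hpos
      rw [e2] at hpos ⊢
      rw [blow_dist hG]
      have hwv : w ≠ v := fun h => hw (by rw [h])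
      exact lt_of_lt_of_le (h2 w hwv hpos) (dist_le_blowD x w _ _)
    · rw [blow_dist hG, e1]
      rcases h3 with h3 | h3
      · exact Or.inl h3
      · right
        rw [blowD_ne, h3]
        rintro rfl
        rw [SimpleGraph.dist_self] at h3
        omega

omit [Fintype V] in
/-- the blow-up stays connected after the deletion of fewer than `m` vertices -/
lemma blow_connected (hG : G.Connected) (S : Finset (V × Fin m)) (hS : S.card < m) :
    ((blow G m).induce {x | x ∉ S}).Connected := by
  classical
  have hfree : ∀ v : V, ∃ i : Fin m, (v, i) ∉ S := by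
    intro v
    by_contra hcon
    push Not at hcon
    have h1 : (univ.image fun i : Fin m => (v, i)) ⊆ S := by
      intro x hx
      obtain ⟨i, _, rfl⟩ := Finset.mem_image.1 hx
      exact hcon i
    have h2 := Finset.card_le_card h1
    rw [Finset.card_image_of_injective _ (fun i j h => (Prod.mk.inj h).2), Finset.card_univ,
      Fintype.card_fin] at h2
    omega
  choose c hc using hfree
  obtain ⟨v0⟩ := hG.nonempty
  rw [connected_iff]
  have hstep : ∀ x : {x : V × Fin m | x ∉ S},
      ((blow G m).induce {x | x ∉ S}).Reachable x ⟨(x.1.1, c x.1.1), hc x.1.1⟩ := by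
    rintro ⟨⟨u, i⟩, hx⟩
    by_cases h : i = c u
    · subst h
      exact Reachable.refl _
    · apply Adj.reachable
      exact Or.inl ⟨rfl, h⟩
  have hwalk : ∀ {u v : V} (p : G.Walk u v), ((blow G m).induce {x | x ∉ S}).Reachable
      ⟨(u, c u), hc u⟩ ⟨(v, c v), hc v⟩ := by
    intro u v p
    induction p with
    | nil => exact Reachable.refl _
    | cons h p ih =>
      refine Reachable.trans ?_ ih
      apply Adj.reachable
      exact Or.inr h
  refine ⟨fun x y => ?_, ⟨⟨(v0, c v0), hc v0⟩⟩⟩
  obtain ⟨p⟩ := hG x.1.1 y.1.1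
  exact ((hstep x).trans (hwalk p)).trans (hstep y).symm

end blow

end Q107.Broadcast
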