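import Pool.Agent.Q107.Broadcast.Basic

/-!
# A kernel-friendly checker for the upper broadcast domination number
-/

set_option autoImplicit false

namespace Q107.Broadcast

open SimpleGraph Finset

/-- `tab` lists, for every remaining vertex, the pairs (mask of the ball of radius `k`, mask of the
boundary) for `k = 1, 2, ...`. -/
def go (full K : ℕ) : List (List (ℕ × ℕ)) → ℕ → ℕ → List ℕ → ℕ → Bool
  | [], once, twice, bds, w =>
      (once != full) || bds.any (fun m => m &&& twice == m) || decide (w ≤ K)
  | bl :: rest, once, twice, bds, w =>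
      go full K rest once twice bds w &&
      (List.range bl.length).all (fun k =>
        let b := bl.getD k (0, 0)
        let once' := once ||| b.1
        let twice' := twice ||| (once &&& b.1)
        let bds' := b.2 :: bds
        bds'.any (fun m => m &&& twice' == m) ||
          go full K rest once' twice' bds' (w + (k + 1)))

/-- validity of a function with respect to a distance table -/
structure Valid (n : ℕ) (D : Fin n → Fin n → ℕ) (F : Fin n → ℕ) : Prop where
  dom : ∀ u, ∃ v, 0 < F v ∧ D u v ≤ F v
  priv : ∀ v, 0 < F v → ∃ x, D x v ≤ F v ∧ (∀ w, w ≠ v → 0 < F w → F w < D x w) ∧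
    (F v = 1 ∨ D x v = F v)

/-- the table matches the distances, for the list `vs` of vertices -/
def Matches {n : ℕ} (D : Fin n → Fin n → ℕ) (F : Fin n → ℕ) (v : Fin n)
    (bl : List (ℕ × ℕ)) : Prop :=
  F v ≤ bl.length ∧ ∀ k, k < bl.length →
    (∀ i : Fin n, (bl.getD k (0, 0)).1.testBit i = decide (D i v ≤ k + 1)) ∧
    (∀ i : Fin n, (bl.getD k (0, 0)).2.testBit i =
      decide (D i v ≤ k + 1 ∧ (k + 1 = 1 ∨ D i v = k + 1)))

theorem go_sound {n : ℕ} {D : Fin n → Fin n → ℕ} {F : Fin n → ℕ} (hF : Valid n D F)
    {full K : ℕ} (hfull : ∀ m : ℕ, (∀ i : Fin n, m.testBit i = true) →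
      (∀ j, n ≤ j → m.testBit j = false) → m = full) :
    ∀ (vs : List (Fin n)) (tab : List (List (ℕ × ℕ))) (once twice : ℕ) (bds : List ℕ) (w : ℕ)
      (P : Finset (Fin n)), vs.Nodup → (∀ v ∈ vs, v ∉ P) → (∀ v, v ∈ P ∨ v ∈ vs) →
      List.Forall₂ (fun v bl => Matches D F v bl ∧
        ∀ k, k < bl.length → ∀ j, n ≤ j → (bl.getD k (0, 0)).1.testBit j = false) vs tab →
      (∀ j, n ≤ j → once.testBit j = false) →
      (∀ i : Fin n, once.testBit i = true ↔ ∃ v ∈ P, 0 < F v ∧ D i v ≤ F v) →
      (∀ i : Fin n, twice.testBit i = true → ∃ v ∈ P, ∃ v' ∈ P, v ≠ v' ∧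
        (0 < F v ∧ D i v ≤ F v) ∧ (0 < F v' ∧ D i v' ≤ F v')) →
      (∀ m ∈ bds, ∃ v ∈ P, 0 < F v ∧
        ∀ i : Fin n, D i v ≤ F v ∧ (F v = 1 ∨ D i v = F v) → m.testBit i = true) →
      w = ∑ v ∈ P, F v → go full K tab once twice bds w = true → ∑ v, F v ≤ K := by
  -- no boundary mask can be contained in the twice heard set
  have hno : ∀ (P : Finset (Fin n)) (twice : ℕ) (bds : List ℕ),
      (∀ i : Fin n, twice.testBit i = true → ∃ v ∈ P, ∃ v' ∈ P, v ≠ v' ∧
        (0 < F v ∧ D i v ≤ F v) ∧ (0 < F v' ∧ D i v' ≤ F v')) →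
      (∀ m ∈ bds, ∃ v ∈ P, 0 < F v ∧
        ∀ i : Fin n, D i v ≤ F v ∧ (F v = 1 ∨ D i v = F v) → m.testBit i = true) →
      bds.any (fun m => m &&& twice == m) = false := by
    intro P twice bds ht hb
    rw [List.any_eq_false]
    intro m hm
    rw [beq_iff_eq]
    intro hcon
    obtain ⟨v, _, hpos, hmask⟩ := hb m hm
    obtain ⟨x, hx1, hx2, hx3⟩ := hF.priv v hpos
    have h1 := hmask x ⟨hx1, hx3⟩
    have h2 : (m &&& twice).testBit x = true := by rw [hcon]; exact h1
    rw [Nat.testBit_land, Bool.and_eq_true] at h2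
    obtain ⟨a, _, b, _, hab, ⟨ha1, ha2⟩, hb1, hb2⟩ := ht x h2.2
    by_cases hav : a = v
    · have hbv : b ≠ v := fun h => hab (hav.trans h.symm)
      have := hx2 b hbv hb1
      omega
    · have := hx2 a hav ha1
      omega
  intro vs
  induction vs with
  | nil =>
    intro tab once twice bds w P _ _ hcov hall honce' honce htwice hbds hw hgo
    cases hall
    have hP : P = univ := by
      ext v
      simpa using hcov v
    subst hP
    unfold go at hgo
    rw [hno _ _ _ htwice hbds, Bool.or_false, Bool.or_eq_true] at hgo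
    rcases hgo with h | h
    · exfalso
      rw [bne_iff_ne] at h
      apply h
      apply hfull _ _ honce'
      intro i
      rw [honce]
      obtain ⟨v, h1, h2⟩ := hF.dom i
      exact ⟨v, Finset.mem_univ v, h1, h2⟩
    · rw [← hw]
      exact of_decide_eq_true h
  | cons v vs ih =>
    intro tab once twice bds w P hnd hdisj hcov hall honce' honce htwice hbds hw hgo
    cases hall with
    | cons hm hrest =>
    rename_i bl tab
    unfold go at hgo
    rw [Bool.and_eq_true] at hgo
    obtain ⟨hgo1, hgo2⟩ := hgo
    have hvP : v ∉ P := hdisj v List.mem_cons_self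
    have hnd' := (List.nodup_cons.1 hnd)
    have hdisj' : ∀ u ∈ vs, u ∉ insert v P := by
      intro u hu hmem
      rcases Finset.mem_insert.1 hmem with h | h
      · subst h
        exact hnd'.1 hu
      · exact hdisj u (List.mem_cons_of_mem _ hu) h
    have hcov' : ∀ u, u ∈ insert v P ∨ u ∈ vs := by
      intro u
      rcases hcov u with h | h
      · exact Or.inl (Finset.mem_insert_of_mem h)
      · rcases List.mem_cons.1 h with h | h
        · exact Or.inl (h ▸ Finset.mem_insert_self _ _)
        · exact Or.inr h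
    by_cases hv : F v = 0
    · -- the vertex does not broadcast
      refine ih tab once twice bds w (insert v P) hnd'.2 hdisj' hcov' hrest honce' ?_ ?_ ?_ ?_ hgo1
      · intro i
        rw [honce]
        constructor
        · rintro ⟨u, hu, h⟩
          exact ⟨u, Finset.mem_insert_of_mem hu, h⟩
        · rintro ⟨u, hu, h⟩
          rcases Finset.mem_insert.1 hu with hu | hu
          · subst hu
            omega
          · exact ⟨u, hu, h⟩
      · intro i hi
        obtain ⟨a, ha, b, hb, h⟩ := htwice i hi
        exact ⟨a, Finset.mem_insert_of_mem ha, b, Finset.mem_insert_of_mem hb, h⟩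
      · intro m hm
        obtain ⟨a, ha, h⟩ := hbds m hm
        exact ⟨a, Finset.mem_insert_of_mem ha, h⟩
      · rw [Finset.sum_insert hvP, hv, zero_add, hw]
    · -- the vertex broadcasts with value `k + 1`
      obtain ⟨k, hk⟩ := Nat.exists_eq_succ_of_ne_zero hv
      have hklt : k < bl.length := by
        have := hm.1.1
        omega
      have hm1 := (hm.1.2 k hklt).1
      have hm2 := (hm.1.2 k hklt).2
      rw [List.all_eq_true] at hgo2
      have hgo3 := hgo2 k (List.mem_range.2 hklt)
      simp only at hgo3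
      set b := bl.getD k (0, 0) with hbdef
      have honceN : ∀ i : Fin n, (once ||| b.1).testBit i = true ↔
          ∃ u ∈ insert v P, 0 < F u ∧ D i u ≤ F u := by
        intro i
        rw [Nat.testBit_lor, Bool.or_eq_true, honce, hm1]
        constructor
        · rintro (⟨u, hu, h⟩ | h)
          · exact ⟨u, Finset.mem_insert_of_mem hu, h⟩
          · have := of_decide_eq_true h
            exact ⟨v, Finset.mem_insert_self _ _, by omega, by omega⟩
        · rintro ⟨u, hu, h⟩
          rcases Finset.mem_insert.1 hu with hu | hu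
          · subst hu
            right
            rw [decide_eq_true_iff]
            omega
          · exact Or.inl ⟨u, hu, h⟩
      have htwiceN : ∀ i : Fin n, (twice ||| (once &&& b.1)).testBit i = true →
          ∃ a ∈ insert v P, ∃ c ∈ insert v P, a ≠ c ∧ (0 < F a ∧ D i a ≤ F a) ∧
            (0 < F c ∧ D i c ≤ F c) := by
        intro i hi
        rw [Nat.testBit_lor, Bool.or_eq_true, Nat.testBit_land, Bool.and_eq_true, honce,
          hm1] at hi
        rcases hi with hi | ⟨⟨u, hu, h⟩, h'⟩
        · obtain ⟨a, ha, c, hc, h⟩ := htwice i hi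
          exact ⟨a, Finset.mem_insert_of_mem ha, c, Finset.mem_insert_of_mem hc, h⟩
        · have h'' := of_decide_eq_true h'
          refine ⟨u, Finset.mem_insert_of_mem hu, v, Finset.mem_insert_self _ _, ?_, h,
            by omega, by omega⟩
          rintro rfl
          exact hvP hu
      have hbdsN : ∀ m ∈ b.2 :: bds, ∃ a ∈ insert v P, 0 < F a ∧
          ∀ i : Fin n, D i a ≤ F a ∧ (F a = 1 ∨ D i a = F a) → m.testBit i = true := by
        intro m hm'
        rcases List.mem_cons.1 hm' with h | h
        · subst h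
          refine ⟨v, Finset.mem_insert_self _ _, by omega, fun i hi => ?_⟩
          rw [hm2, decide_eq_true_iff]
          rw [hk] at hi
          exact hi
        · obtain ⟨a, ha, h⟩ := hbds m h
          exact ⟨a, Finset.mem_insert_of_mem ha, h⟩
      rw [hno _ _ _ htwiceN hbdsN, Bool.false_or] at hgo3
      refine ih tab _ _ _ _ (insert v P) hnd'.2 hdisj' hcov' hrest ?_ honceN htwiceN hbdsN ?_ hgo3
      · intro j hj
        rw [Nat.testBit_lor, honce' j hj, hm.2 k hklt j hj]
        rfl
      · rw [Finset.sum_insert hvP, hk, hw]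
        omega

end Q107.Broadcast
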