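import Mathlib

/-!
# Broadcasts on finite connected graphs: definitions
-/

set_option autoImplicit false

namespace Q107.Broadcast

open SimpleGraph Finset

/-- The eccentricity `e(v)` of a vertex of a finite connected graph. -/
noncomputable def ecc {V : Type} [Fintype V] (G : SimpleGraph V) (v : V) : ℕ :=
  univ.sup fun u => G.dist u v

/-- `f` is a broadcast: `f(v) ≤ e(v)` for every vertex `v`. -/
def IsBroadcast {V : Type} [Fintype V] (G : SimpleGraph V) (f : V → ℕ) : Prop :=
  ∀ v, f v ≤ ecc G v

/-- The vertex `u` hears `f` from the vertex `v`. -/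
def Hears {V : Type} (G : SimpleGraph V) (f : V → ℕ) (u v : V) : Prop :=
  0 < f v ∧ G.dist u v ≤ f v

/-- `f` is dominating: every vertex hears `f`. -/
def IsDominating {V : Type} (G : SimpleGraph V) (f : V → ℕ) : Prop :=
  ∀ u, ∃ v, Hears G f u v

/-- `f` is a minimal dominating broadcast: it is a dominating broadcast and no broadcast `g ≤ f`
other than `f` is dominating. -/
def IsMinDominating {V : Type} [Fintype V] (G : SimpleGraph V) (f : V → ℕ) : Prop :=
  IsBroadcast G f ∧ IsDominating G f ∧
    ∀ g : V → ℕ, IsBroadcast G g → g ≠ f → (∀ v, g v ≤ f v) → ¬ IsDominating G g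

/-- The upper broadcast domination number `Γ_b(G)`: the maximum weight of a minimal dominating
broadcast. -/
noncomputable def upperBroadcastNum {V : Type} [Fintype V] (G : SimpleGraph V) : ℕ :=
  sSup {k | ∃ f : V → ℕ, IsMinDominating G f ∧ ∑ v, f v = k}

/-- `f` is bn-independent: `N_f(u) ∩ N_f(v) ⊆ B_f(u) ∩ B_f(v)` for all distinct broadcasting
vertices `u` and `v`. -/
def IsBnIndep {V : Type} (G : SimpleGraph V) (f : V → ℕ) : Prop :=
  ∀ u v, 0 < f u → 0 < f v → u ≠ v →
    ∀ w, G.dist w u ≤ f u → G.dist w v ≤ f v → G.dist w u = f u ∧ G.dist w v = f v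

open Classical in
/-- The private boundary `PB_f(v)`: the vertices of `N_f(v)` that do not hear the broadcast
obtained from `f` by lowering the value at `v` by one. -/
def privateBoundary {V : Type} (G : SimpleGraph V) (f : V → ℕ) (v : V) : Set V :=
  {u | G.dist u v ≤ f v ∧ ¬ ∃ w, Hears G (Function.update f v (f v - 1)) u w}

/-- `f` is irredundant. -/
def IsIrredundant {V : Type} (G : SimpleGraph V) (f : V → ℕ) : Prop :=
  ∀ v, 0 < f v → (privateBoundary G f v).Nonempty

/-- The bnr-independence number `α_bnr(G)`: the maximum weight of a broadcast that is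
bn-independent and irredundant. -/
noncomputable def bnrIndepNum {V : Type} [Fintype V] (G : SimpleGraph V) : ℕ :=
  sSup {k | ∃ f : V → ℕ, IsBroadcast G f ∧ IsBnIndep G f ∧ IsIrredundant G f ∧ ∑ v, f v = k}

end Q107.Broadcast
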