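import Pool.Agent.Q107.Broadcast.Check

/-!
# A graph on nine vertices with `α_bnr = 5` and `Γ_b = 4`
-/

set_option autoImplicit false

namespace Q107.Broadcast

open SimpleGraph Finset

/-- adjacency masks -/
def mask9 : List ℕ := [308, 256, 57, 148, 333, 5, 16, 8, 19]

/-- the graph with edges 02 04 05 08 18 23 24 25 34 37 46 48 -/
def g9 : SimpleGraph (Fin 9) where
  Adj i j := (mask9.getD i 0).testBit j = true
  symm := ⟨by decide⟩
  loopless := ⟨by decide⟩

instance : DecidableRel g9.Adj := fun i j =>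
  inferInstanceAs (Decidable ((mask9.getD i 0).testBit j = true))

/-- the distance table -/
def dt9 : List (List ℕ) := [[0, 2, 1, 2, 1, 1, 2, 3, 1], [2, 0, 3, 3, 2, 3, 3, 4, 1],
  [1, 3, 0, 1, 1, 1, 2, 2, 2], [2, 3, 1, 0, 1, 2, 2, 1, 2], [1, 2, 1, 1, 0, 2, 1, 2, 1],
  [1, 3, 1, 2, 2, 0, 3, 3, 2], [2, 3, 2, 2, 1, 3, 0, 3, 2], [3, 4, 2, 1, 2, 3, 3, 0, 3],
  [1, 1, 2, 2, 1, 2, 2, 3, 0]]

/-- the distance table as a function -/
def D9 (i j : Fin 9) : ℕ := (dt9.getD i []).getD j 0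

/-- balls and boundaries -/
def tab9 : List (List (ℕ × ℕ)) := [[(309, 309), (383, 74), (511, 128)],
  [(258, 258), (275, 17), (383, 108), (511, 128)], [(61, 61), (509, 448), (511, 2)],
  [(156, 156), (509, 353), (511, 2)], [(349, 349), (511, 162)],
  [(37, 37), (317, 280), (511, 194)], [(80, 80), (349, 269), (511, 162)],
  [(136, 136), (156, 20), (509, 353), (511, 2)], [(275, 275), (383, 108), (511, 128)]]

lemma g9_table (u v : Fin 9) : g9.Reachable u v ∧ g9.dist u v = D9 u v := by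
  apply table
  · decide
  · decide +kernel
  · decide +kernel

lemma g9_dist (u v : Fin 9) : g9.dist u v = D9 u v := (g9_table u v).2

lemma g9_connected : g9.Connected := by
  rw [connected_iff]
  exact ⟨fun u v => (g9_table u v).1, ⟨0⟩⟩

lemma tab9_ok : ∀ v : Fin 9, ∀ k, k < (tab9.getD v []).length →
    (∀ i : Fin 9, ((tab9.getD v []).getD k (0, 0)).1.testBit i = decide (D9 i v ≤ k + 1)) ∧
    (∀ i : Fin 9, ((tab9.getD v []).getD k (0, 0)).2.testBit i =
      decide (D9 i v ≤ k + 1 ∧ (k + 1 = 1 ∨ D9 i v = k + 1))) ∧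
    ((tab9.getD v []).getD k (0, 0)).1 < 2 ^ 9 := by
  decide +kernel

lemma tab9_len : ∀ v u : Fin 9, D9 u v ≤ (tab9.getD v []).length := by
  decide +kernel

lemma go9 : go 511 4 tab9 0 0 [] 0 = true := by
  decide +kernel

lemma g9_upper : upperBroadcastNum g9 ≤ 4 := by
  apply upper_le
  intro F hF
  have hval : Valid 9 D9 F := by
    constructor
    · intro u
      obtain ⟨v, h1, h2⟩ := hF.2.1 u
      exact ⟨v, h1, by rwa [g9_dist] at h2⟩
    · intro v hv
      obtain ⟨x, h1, h2, h3⟩ := priv_of_min hF v hv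
      rw [g9_dist] at h1 h3
      refine ⟨x, h1, fun w hw hpos => ?_, h3⟩
      rw [← g9_dist]
      exact h2 w hw hpos
  have hle : ∀ v, F v ≤ (tab9.getD v []).length := by
    intro v
    refine (hF.1 v).trans (ecc_le fun u => ?_)
    rw [g9_dist]
    exact tab9_len v u
  have hmatch : ∀ v : Fin 9, Matches D9 F v (tab9.getD v []) ∧
      ∀ k, k < (tab9.getD v []).length → ∀ j, 9 ≤ j →
        ((tab9.getD v []).getD k (0, 0)).1.testBit j = false := by
    intro v
    refine ⟨⟨hle v, fun k hk => ?_⟩, fun k hk j hj => ?_⟩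
    · obtain ⟨h1, h2, _⟩ := tab9_ok v k hk
      exact ⟨h1, h2⟩
    · obtain ⟨_, _, h3⟩ := tab9_ok v k hk
      exact Nat.testBit_lt_two_pow (lt_of_lt_of_le h3 (Nat.pow_le_pow_right (by norm_num) hj))
  refine go_sound hval (full := 511) (K := 4) ?_ [0, 1, 2, 3, 4, 5, 6, 7, 8] tab9 0 0 [] 0 ∅
    (by decide) (by simp) ?_ ?_ (by simp) (by simp) (by simp) (by simp) (by simp) go9
  · intro m h1 h2
    apply Nat.eq_of_testBit_eq
    intro i
    rcases Nat.lt_or_ge i 9 with h | h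
    · rw [h1 ⟨i, h⟩]
      interval_cases i <;> rfl
    · rw [h2 i h]
      exact (Nat.testBit_lt_two_pow (lt_of_lt_of_le (by norm_num : 511 < 2 ^ 9)
        (Nat.pow_le_pow_right (by norm_num) h))).symm
  · intro v
    right
    fin_cases v <;> simp
  · have e : tab9 = List.map (fun v : Fin 9 => tab9.getD v []) [0, 1, 2, 3, 4, 5, 6, 7, 8] := by
      decide
    rw [e, List.forall₂_map_right_iff, List.forall₂_same]
    intro v _
    exact hmatch v

/-- the bnr-independent broadcast -/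
def f9 : Fin 9 → ℕ := ![0, 2, 0, 0, 0, 0, 1, 2, 0]

lemma f9_broadcast : IsBroadcast g9 f9 := by
  have h : ∀ v : Fin 9, ∃ u : Fin 9, f9 v ≤ D9 u v := by decide +kernel
  intro v
  obtain ⟨u, hu⟩ := h v
  rw [← g9_dist] at hu
  exact hu.trans (dist_le_ecc u v)

lemma f9_bn : IsBnIndep g9 f9 := by
  have h : ∀ u v : Fin 9, 0 < f9 u → 0 < f9 v → u ≠ v → ∀ w, D9 w u ≤ f9 u → D9 w v ≤ f9 v →
      D9 w u = f9 u ∧ D9 w v = f9 v := by decide +kernel
  intro u v hu hv huv w h1 h2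
  rw [g9_dist] at h1 h2 ⊢
  rw [g9_dist]
  exact h u v hu hv huv w h1 h2

lemma f9_priv : ∀ v, 0 < f9 v → ∃ x, Priv g9 f9 v x := by
  have h : ∀ v : Fin 9, 0 < f9 v → ∃ x, D9 x v ≤ f9 v ∧
      (∀ w, w ≠ v → 0 < f9 w → f9 w < D9 x w) ∧ (f9 v = 1 ∨ D9 x v = f9 v) := by decide +kernel
  intro v hv
  obtain ⟨x, h1, h2, h3⟩ := h v hv
  refine ⟨x, ?_, fun w hw hpos => ?_, ?_⟩
  · rwa [g9_dist]
  · rw [g9_dist]
    exact h2 w hw hpos
  · rwa [g9_dist]

lemma f9_sum : ∑ v, f9 v = 5 := by decide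

/-- The blow-ups of the nine-vertex graph. -/
theorem blow9 (m : ℕ) (hm : 0 < m) :
    upperBroadcastNum (blow g9 m) ≤ 4 ∧ 5 ≤ bnrIndepNum (blow g9 m) := by
  refine ⟨(blow_upper_le g9_connected hm).trans g9_upper, ?_⟩
  rw [← f9_sum]
  exact lift_bnr g9_connected hm f9_broadcast f9_bn f9_priv

end Q107.Broadcast
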